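import Mathlib
import Pool.Agent.Q167.MF.Four
import Pool.Agent.TH651.DB.Final
set_option autoImplicit false

/-! # Progressions for monotone families -/

namespace Pool.Agent.Q167.MG

open Finset Pool.Agent.Q167.MF
open scoped Pointwise

/-- the progression `{a + n₁ v₁ + ... + n_r v_r : 0 ≤ n_i < N_i}` -/
def prog {Γ : Type*} [AddCommGroup Γ] {r : ℕ} (a : Γ) (v : Fin r → Γ) (N : Fin r → ℕ) : Set Γ :=
  {x | ∃ n : Fin r → ℕ, (∀ i, n i < N i) ∧ x = a + ∑ i, n i • v i}

/-- the conclusion of Q1: a progression `P` of rank at most `ρ`, with `|P| ≤ s |A|` and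
`|A ∩ P| ≥ |A| / δ` -/
def Meets {Γ : Type*} [AddCommGroup Γ] (ρ s δ : ℝ) (A : Finset Γ) : Prop :=
  ∃ (r : ℕ) (a : Γ) (v : Fin r → Γ) (N : Fin r → ℕ), (r : ℝ) ≤ ρ ∧ (∀ i, 1 ≤ N i) ∧
    ((prog a v N).ncard : ℝ) ≤ s * A.card ∧
    (A.card : ℝ) ≤ δ * (((A : Set Γ) ∩ prog a v N).ncard : ℝ)

lemma prog_eq {Γ : Type*} [AddCommGroup Γ] {r : ℕ} (a : Γ) (v : Fin r → Γ) (N : Fin r → ℕ) :
    prog a v N = (fun n : Fin r → ℕ => a + ∑ i, n i • v i) ''
      ((Fintype.piFinset fun i => range (N i) : Finset (Fin r → ℕ)) : Set (Fin r → ℕ)) := by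
  ext x
  constructor
  · rintro ⟨n, hn, rfl⟩
    exact ⟨n, by simpa using hn, rfl⟩
  · rintro ⟨n, hn, rfl⟩
    exact ⟨n, by simpa using hn, rfl⟩

lemma prog_finite {Γ : Type*} [AddCommGroup Γ] {r : ℕ} (a : Γ) (v : Fin r → Γ) (N : Fin r → ℕ) :
    (prog a v N).Finite := by
  rw [prog_eq]
  exact (Finset.finite_toSet _).image _

lemma prog_card {Γ : Type*} [AddCommGroup Γ] {r : ℕ} (a : Γ) (v : Fin r → Γ) (N : Fin r → ℕ) :
    (prog a v N).ncard ≤ ∏ i, N i := by
  rw [prog_eq]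
  refine (Set.ncard_image_le (Finset.finite_toSet _)).trans ?_
  rw [Set.ncard_coe_finset, Fintype.card_piFinset]
  simp

lemma prog_append {Γ E G : Type*} [AddCommGroup Γ] [AddCommGroup E] [AddCommGroup G] (φ : (E × G) →+ Γ)
    (c : Γ) {d r : ℕ} (a₁ : E) (w : Fin d → E) (N : Fin d → ℕ) (a₂ : G) (v : Fin r → G)
    (M : Fin r → ℕ) :
    prog (c + φ (a₁, a₂)) (Fin.append (fun i => φ (w i, 0)) (fun j => φ (0, v j))) (Fin.append N M) =
      (fun p : E × G => c + φ p) '' (prog a₁ w N ×ˢ prog a₂ v M) := by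
  have key : ∀ (n₁ : Fin d → ℕ) (n₂ : Fin r → ℕ),
      c + φ (a₁ + ∑ i, n₁ i • w i, a₂ + ∑ j, n₂ j • v j) =
        c + φ (a₁, a₂) + ((∑ i, n₁ i • φ (w i, 0)) + ∑ j, n₂ j • φ (0, v j)) := by
    intro n₁ n₂
    have e1 : (∑ i, n₁ i • φ (w i, (0 : G))) = φ (∑ i, n₁ i • w i, 0) := by
      simp_rw [← map_nsmul]
      rw [← map_sum]
      congr 1
      ext
      · simp [Prod.fst_sum]
      · simp [Prod.snd_sum]
    have e2 : (∑ j, n₂ j • φ ((0 : E), v j)) = φ (0, ∑ j, n₂ j • v j) := by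
      simp_rw [← map_nsmul]
      rw [← map_sum]
      congr 1
      ext
      · simp [Prod.fst_sum]
      · simp [Prod.snd_sum]
    rw [e1, e2, ← map_add, add_assoc, ← map_add]
    congr 2
    simp
  ext x
  constructor
  · rintro ⟨n, hn, rfl⟩
    refine ⟨(a₁ + ∑ i, n (Fin.castAdd r i) • w i, a₂ + ∑ j, n (Fin.natAdd d j) • v j),
      ⟨⟨fun i => n (Fin.castAdd r i), fun i => ?_, rfl⟩, ⟨fun j => n (Fin.natAdd d j), fun j => ?_, rfl⟩⟩,
      ?_⟩
    · have := hn (Fin.castAdd r i)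
      rwa [Fin.append_left] at this
    · have := hn (Fin.natAdd d j)
      rwa [Fin.append_right] at this
    · show c + φ _ = _
      rw [key, Fin.sum_univ_add]
      simp only [Fin.append_left, Fin.append_right]
  · rintro ⟨⟨x₁, x₂⟩, ⟨⟨n₁, h₁, e₁⟩, ⟨n₂, h₂, e₂⟩⟩, rfl⟩
    simp only at e₁ e₂
    refine ⟨Fin.append n₁ n₂, fun i => ?_, ?_⟩
    · refine Fin.addCases (fun i => ?_) (fun j => ?_) i
      · rw [Fin.append_left, Fin.append_left]; exact h₁ i
      · rw [Fin.append_right, Fin.append_right]; exact h₂ j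
    · show c + φ (x₁, x₂) = _
      rw [e₁, e₂, key, Fin.sum_univ_add]
      simp only [Fin.append_left, Fin.append_right]

lemma sub_card {G : Type*} [AddCommGroup G] [DecidableEq G] {S : Finset G} (hS : S.Nonempty) {K : ℝ}
    (hK0 : 0 ≤ K) (h : ((S + S).card : ℝ) ≤ K * S.card) : ((S - S).card : ℝ) ≤ K ^ 2 * S.card := by
  have h1 := ruzsa_triangle_inequality_sub_add_add S S S
  have hp : (0 : ℝ) < S.card := by exact_mod_cast hS.card_pos
  have h2 : ((S - S).card : ℝ) * S.card ≤ (S + S).card * (S + S).card := by exact_mod_cast h1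
  have h3 : ((S + S).card : ℝ) * (S + S).card ≤ (K * S.card) * (K * S.card) :=
    mul_le_mul h h (Nat.cast_nonneg _) (by positivity)
  have h4 : ((S - S).card : ℝ) * S.card ≤ (K ^ 2 * S.card) * S.card := by
    calc _ ≤ _ := h2
      _ ≤ _ := h3
      _ = _ := by ring
  exact le_of_mul_le_mul_right h4 hp

/-- a large piece of a star-shaped set in a progression -/
lemma star {n : ℕ} (K : ℝ) (S : Finset (Fin n → ℤ)) (hS : S.Nonempty)
    (hK : ((S + S).card : ℝ) ≤ K * (S.card : ℝ))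
    (hbox : ∀ x ∈ S, ∀ y : Fin n → ℤ, Between y x → y ∈ S) :
    ∃ (d : ℕ) (a : Fin n → ℤ) (w : Fin d → (Fin n → ℤ)) (N : Fin d → ℕ) (B : Finset (Fin n → ℤ)),
      (∀ i, 1 ≤ N i) ∧ (2 : ℝ) ^ d ≤ (4 * K) ^ 2 ∧ ((∏ i, N i : ℕ) : ℝ) ≤ S.card ∧ B ⊆ S ∧
      (S.card : ℝ) ≤ 32 * (4 * K) ^ 17 * B.card ∧ (B : Set (Fin n → ℤ)) ⊆ prog a w N := by
  have hs : ∀ x : Fin n → ℤ, ∑ i, x i • (Pi.single i (1 : ℤ) : Fin n → ℤ) = x := by
    intro x
    conv_rhs => rw [← Finset.univ_sum_single x]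
    refine Finset.sum_congr rfl (fun i _ => ?_)
    rw [← Pi.single_smul]
    simp
  obtain ⟨a, d, w, N, B, T, h1, h2, h3, h4, h5, h6, -, -⟩ :=
    TH651.DB.final n S S hbox (Finset.Subset.refl _) (fun i => (Pi.single i (1 : ℤ) : Fin n → ℤ))
      (by
        intro x _ y _ hxy
        simp only [hs] at hxy
        exact hxy)
      S 0 (by intro x hx; rw [hs, zero_add]; exact hx) hS K 1 1 hK (by rw [one_mul]) (by rw [one_mul])
  refine ⟨d, a, w, N, B, fun i => (by norm_num : 1 ≤ 2).trans (h1 i), ?_, ?_, h4, ?_, ?_⟩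
  · simpa using h2
  · simpa using h3
  · simpa using h5
  · intro x hx
    obtain ⟨m, hm, e⟩ := h6 x hx
    exact ⟨m, hm, e⟩

theorem main {Γ G : Type*} [AddCommGroup Γ] [DecidableEq Γ] [AddCommGroup G] [DecidableEq G]
    {K : ℝ} {A : Finset Γ} {n : ℕ} {D : Finset ((Fin n → ℤ) × G)}
    {φ : ((Fin n → ℤ) × G) →+ Γ} {g : Γ} (hM : Model K A D φ g) {ρ s δ : ℝ}
    (hF : Meets ρ s δ (fibre D)) :
    Meets (ρ + (4 + 6 * Real.logb 2 K)) (s * K ^ 2) (2 ^ 39 * K ^ 64 * δ) A := by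
  classical
  have hK1 : 1 ≤ K := Pool.Agent.Y806.DF.one_le_K hM.ne hM.doubling
  have hK0 : 0 < K := by linarith
  obtain ⟨hsub, c1, c2, hstar, hFne, c3⟩ := sizes D hM.ne hM.monotone hK1 hM.doubling
  set S := D.image Prod.fst with hS
  set F := fibre D with hFd
  have hSne : S.Nonempty := hM.ne.image _
  have hSp : (0 : ℝ) < S.card := by exact_mod_cast hSne.card_pos
  have hFp : (0 : ℝ) < F.card := by exact_mod_cast hFne.card_pos
  obtain ⟨d, a₁, w, N, B, hN, hd, hNS, hBS, hBc, hBP⟩ := star (K ^ 3) S hSne c2 hstar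
  obtain ⟨r, a₂, v, M, hr, hM1, hsz, hmt⟩ := hF
  set F' : Finset G := F.filter (fun x => x ∈ prog a₂ v M) with hF'
  have hF'c : ((F : Set G) ∩ prog a₂ v M).ncard = F'.card := by
    rw [← Set.ncard_coe_finset]
    congr 1
    ext x
    simp [hF']
  rw [hF'c] at hmt
  have hδ : 0 < δ := by
    by_contra h
    push Not at h
    have : δ * (F'.card : ℝ) ≤ 0 := mul_nonpos_of_nonpos_of_nonneg h (Nat.cast_nonneg _)
    linarith
  have hs0 : 0 ≤ s := by
    by_contra h
    push Not at h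
    have h1 : s * (F.card : ℝ) < 0 := mul_neg_of_neg_of_pos h hFp
    have h2 : (0 : ℝ) ≤ ((prog a₂ v M).ncard : ℝ) := Nat.cast_nonneg _
    linarith
  -- sizes
  have hDp : (0 : ℝ) < D.card := by exact_mod_cast hM.ne.card_pos
  have hAp : (0 : ℝ) < A.card := by
    by_contra h
    push Not at h
    have h1 : K * (A.card : ℝ) ≤ 0 := mul_nonpos_of_nonneg_of_nonpos hK0.le h
    have := hM.size
    linarith
  set A1 := A.filter (fun a => ∃ p ∈ D, a = g + φ p) with hA1
  have hmeet' : (A.card : ℝ) ≤ K * A1.card := by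
    have hmeet := hM.meet
    have h2 : {a : Γ | a ∈ A ∧ ∃ p ∈ D, a = g + φ p} = (A1 : Set Γ) := by
      ext a
      rw [hA1, Finset.coe_filter]
    rw [h2, Set.ncard_coe_finset] at hmeet
    exact hmeet
  have hsec : ∀ a : Γ, ∃ p : (Fin n → ℤ) × G, a ∈ A1 → p ∈ D ∧ a = g + φ p := by
    intro a
    by_cases ha : a ∈ A1
    · obtain ⟨p, hp, e⟩ := (Finset.mem_filter.1 ha).2
      exact ⟨p, fun _ => ⟨hp, e⟩⟩
    · exact ⟨0, fun h => absurd h ha⟩
  choose σ hσ using hsec
  set Q : Finset ((Fin n → ℤ) × G) := B ×ˢ F' with hQ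
  set W : Finset ((Fin n → ℤ) × G) := (S - S) ×ˢ (F - F) with hW
  have hmaps : ∀ p ∈ A1 ×ˢ Q, σ p.1 - p.2 ∈ W := by
    rintro ⟨a, q⟩ hp
    obtain ⟨ha, hq⟩ := mem_product.1 hp
    obtain ⟨hq1, hq2⟩ := mem_product.1 hq
    have h1 := hsub _ (hσ a ha).1
    exact mem_product.2 ⟨sub_mem_sub h1.1 (hBS hq1), sub_mem_sub h1.2 (Finset.mem_filter.1 hq2).1⟩
  have hWne : W.Nonempty := (hSne.sub hSne).product (hFne.sub hFne)
  have hWp : (0 : ℝ) < W.card := by exact_mod_cast hWne.card_pos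
  obtain ⟨t, -, ht⟩ := Finset.exists_le_card_fiber_of_nsmul_le_card_of_maps_to
    (b := ((A1 ×ˢ Q).card : ℝ) / W.card) hmaps hWne (by
      rw [nsmul_eq_mul, mul_div_cancel₀]
      exact hWp.ne')
  rw [div_le_iff₀ hWp] at ht
  -- the progression
  have hPeq := prog_append φ (g + φ t) a₁ w N a₂ v M
  set P : Set Γ := prog (g + φ t + φ (a₁, a₂))
    (Fin.append (fun i => φ (w i, 0)) (fun j => φ (0, v j))) (Fin.append N M) with hP
  have hfib : ((A1 ×ˢ Q).filter (fun p => σ p.1 - p.2 = t)).card ≤ ((A : Set Γ) ∩ P).ncard := by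
    rw [← Set.ncard_coe_finset]
    apply Set.ncard_le_ncard_of_injOn (fun p => p.1)
    · rintro ⟨a, q⟩ hp
      rw [mem_coe, Finset.mem_filter] at hp
      obtain ⟨hp1, hp2⟩ := hp
      obtain ⟨ha, hq⟩ := mem_product.1 hp1
      obtain ⟨hq1, hq2⟩ := mem_product.1 hq
      refine ⟨(Finset.mem_filter.1 ha).1, ?_⟩
      rw [hPeq]
      refine ⟨q, ⟨hBP (mem_coe.2 hq1), (Finset.mem_filter.1 hq2).2⟩, ?_⟩
      show g + φ t + φ q = a
      have e := (hσ a ha).2
      have e2 : σ a = t + q := by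
        simp only at hp2
        rw [← hp2]; abel
      rw [e2, map_add, ← add_assoc] at e
      exact e.symm
    · rintro ⟨a, q⟩ hp ⟨a', q'⟩ hp' h
      rw [mem_coe, Finset.mem_filter] at hp hp'
      simp only at h hp hp'
      obtain rfl := h
      have : q = q' := by
        have h1 := hp.2.trans hp'.2.symm
        exact sub_right_injective h1
      rw [this]
  refine ⟨d + r, g + φ t + φ (a₁, a₂), Fin.append (fun i => φ (w i, 0)) (fun j => φ (0, v j)),
    Fin.append N M, ?_, ?_, ?_, ?_⟩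
  · push_cast
    have h1 : (d : ℝ) ≤ 4 + 6 * Real.logb 2 K := by
      have h2 : (2 : ℝ) ^ d ≤ 2 ^ 4 * K ^ 6 := by
        calc (2 : ℝ) ^ d ≤ (4 * K ^ 3) ^ 2 := hd
          _ = 2 ^ 4 * K ^ 6 := by ring
      have h3 := Real.log_le_log (by positivity) h2
      rw [Real.log_mul (by positivity) (by positivity), Real.log_pow, Real.log_pow, Real.log_pow] at h3
      have hl : 0 < Real.log 2 := Real.log_pos (by norm_num)
      rw [Real.logb]
      have h4 : (d : ℝ) * Real.log 2 ≤ (4 + 6 * (Real.log K / Real.log 2)) * Real.log 2 := by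
        rw [add_mul, mul_assoc 6, div_mul_cancel₀ _ hl.ne']
        push_cast at h3
        exact h3
      exact le_of_mul_le_mul_right h4 hl
    linarith
  · intro i
    refine Fin.addCases (fun i => ?_) (fun j => ?_) i
    · rw [Fin.append_left]; exact hN i
    · rw [Fin.append_right]; exact hM1 j
  · rw [← hP, hPeq]
    have h1 : ((fun p : (Fin n → ℤ) × G => g + φ t + φ p) '' (prog a₁ w N ×ˢ prog a₂ v M)).ncard ≤
        (prog a₁ w N).ncard * (prog a₂ v M).ncard := by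
      refine (Set.ncard_image_le ((prog_finite _ _ _).prod (prog_finite _ _ _))).trans ?_
      rw [Set.ncard_prod]
    calc _ ≤ (((prog a₁ w N).ncard : ℝ)) * (prog a₂ v M).ncard := by exact_mod_cast h1
      _ ≤ S.card * (s * F.card) := by
        apply mul_le_mul _ hsz (Nat.cast_nonneg _) hSp.le
        exact le_trans (by exact_mod_cast prog_card a₁ w N) hNS
      _ = s * (S.card * F.card) := by ring
      _ ≤ s * (K * D.card) := mul_le_mul_of_nonneg_left c1 hs0
      _ ≤ s * (K * (K * A.card)) := by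
        apply mul_le_mul_of_nonneg_left _ hs0
        exact mul_le_mul_of_nonneg_left hM.size hK0.le
      _ = s * K ^ 2 * A.card := by ring
  · rw [← hP]
    set J : ℝ := (((A : Set Γ) ∩ P).ncard : ℝ) with hJ
    have hJ0 : 0 ≤ J := Nat.cast_nonneg _
    have hSS := sub_card hSne (by positivity) c2
    have hFF := sub_card hFne (by positivity) c3
    have hWc : (W.card : ℝ) ≤ (K ^ 12) * (S.card * F.card) := by
      rw [hW, card_product]
      push_cast
      calc ((S - S).card : ℝ) * (F - F).card ≤ ((K ^ 3) ^ 2 * S.card) * ((K ^ 3) ^ 2 * F.card) :=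
            mul_le_mul hSS hFF (Nat.cast_nonneg _) (by positivity)
        _ = _ := by ring
    have h1 : (A1.card : ℝ) * (B.card * F'.card) ≤ J * W.card := by
      have h2 : (((A1 ×ˢ Q).card : ℕ) : ℝ) = (A1.card : ℝ) * (B.card * F'.card) := by
        rw [card_product, hQ, card_product]
        push_cast
        ring
      rw [← h2]
      refine ht.trans ?_
      apply mul_le_mul_of_nonneg_right _ hWp.le
      rw [hJ]
      exact_mod_cast hfib
    have h3 : (A.card : ℝ) * (S.card * F.card) ≤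
        (2 ^ 39 * K ^ 64 * δ * J) * (S.card * F.card) := by
      calc (A.card : ℝ) * (S.card * F.card)
          ≤ (K * A1.card) * ((32 * (4 * K ^ 3) ^ 17 * B.card) * (δ * F'.card)) := by
            apply mul_le_mul hmeet' _ (by positivity) (by positivity)
            exact mul_le_mul hBc hmt hFp.le (by positivity)
        _ = (32 * (4 * K ^ 3) ^ 17 * K * δ) * ((A1.card : ℝ) * (B.card * F'.card)) := by ring
        _ ≤ (32 * (4 * K ^ 3) ^ 17 * K * δ) * (J * W.card) :=
            mul_le_mul_of_nonneg_left h1 (by positivity)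
        _ ≤ (32 * (4 * K ^ 3) ^ 17 * K * δ) * (J * ((K ^ 12) * (S.card * F.card))) := by
            apply mul_le_mul_of_nonneg_left _ (by positivity)
            exact mul_le_mul_of_nonneg_left hWc hJ0
        _ = (2 ^ 39 * K ^ 64 * δ * J) * (S.card * F.card) := by ring
    exact le_of_mul_le_mul_right h3 (by positivity)

lemma meets_small {G : Type*} [AddCommGroup G] {L : ℝ} {F : Finset G} (hF : F.Nonempty)
    (hL : (F.card : ℝ) ≤ L) : Meets 0 1 L F := by
  obtain ⟨f, hf⟩ := hF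
  have hp : prog f (fun i : Fin 0 => (0 : G)) (fun _ => 1) = {f} := by
    ext x
    simp [prog]
  refine ⟨0, f, fun _ => 0, fun _ => 1, by simp, fun i => le_rfl, ?_, ?_⟩
  · rw [hp, Set.ncard_singleton]
    have : 1 ≤ F.card := Finset.card_pos.2 ⟨f, hf⟩
    have : (1 : ℝ) ≤ F.card := by exact_mod_cast this
    simpa using this
  · rw [hp]
    have : (F : Set G) ∩ {f} = {f} := by
      ext x
      simp only [Set.mem_inter_iff, mem_coe, Set.mem_singleton_iff]
      constructor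
      · exact fun h => h.2
      · rintro rfl; exact ⟨hf, rfl⟩
    rw [this, Set.ncard_singleton]
    simpa using hL

universe u

/-- towers of monotone families: a tower of height `0` is a nonempty set with at most `L` elements; a
tower of height `h + 1` is a set with a model whose fibre over `0` is a tower of height `h` -/
def Tower (K L : ℝ) : ℕ → ∀ (Γ : Type u) [AddCommGroup Γ] [DecidableEq Γ], Finset Γ → Prop
  | 0, _, _, _, A => A.Nonempty ∧ (A.card : ℝ) ≤ L
  | h + 1, Γ, _, _, A => ∃ (G : Type u) (_ : AddCommGroup G) (_ : DecidableEq G) (n : ℕ)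
      (D : Finset ((Fin n → ℤ) × G)) (φ : ((Fin n → ℤ) × G) →+ Γ) (g : Γ),
      Model K A D φ g ∧ Tower K L h G (fibre D)

theorem tower (K L : ℝ) (h : ℕ) : ∀ (Γ : Type u) [AddCommGroup Γ] [DecidableEq Γ] (A : Finset Γ),
    Tower K L h Γ A →
    Meets (h * (4 + 6 * Real.logb 2 K)) (K ^ (2 * h)) ((2 ^ 39 * K ^ 64) ^ h * L) A := by
  induction h with
  | zero =>
    intro Γ _ _ A hA
    have := meets_small hA.1 hA.2
    simpa using this
  | succ h ih =>
    intro Γ _ _ A hA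
    obtain ⟨G, i1, i2, n, D, φ, g, hM, hT⟩ := hA
    have h1 := main hM (ih G (fibre D) hT)
    have e1 : (h : ℝ) * (4 + 6 * Real.logb 2 K) + (4 + 6 * Real.logb 2 K) =
        ((h + 1 : ℕ) : ℝ) * (4 + 6 * Real.logb 2 K) := by push_cast; ring
    have e2 : K ^ (2 * h) * K ^ 2 = K ^ (2 * (h + 1)) := by ring
    have e3 : 2 ^ 39 * K ^ 64 * ((2 ^ 39 * K ^ 64) ^ h * L) = (2 ^ 39 * K ^ 64) ^ (h + 1) * L := by ring
    rw [e1, e2, e3] at h1
    exact h1

end Pool.Agent.Q167.MG
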